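import Pool.Agent.H.MP_3eb4be_co.B

set_option autoImplicit false

namespace Pool.Agent.Results.MP_3eb4be_co.Exact

open Pool.Agent.H.MP_3eb4be_co Finset

theorem upper (l t : ℕ) (hl : 1 ≤ l) (h : Forces l t) : t ≤ l / 2 + 1 := by
  classical
  by_contra! hc
  rcases Nat.lt_or_ge l 2 with h1 | h1
  · obtain rfl : l = 1 := by omega
    have hlam : ∀ v w : Bool, v ≠ w → 1 ≤ lam (⊤ : SimpleGraph Bool) v w := fun v w hvw => by
      have := le_lam_of (⊤ : SimpleGraph Bool) hvw (ι := Unit) (fun _ => ⊤) (fun _ => le_rfl)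
        (fun _ _ _ _ _ _ => rfl) (fun _ => SimpleGraph.Adj.reachable hvw)
      simpa using this
    obtain ⟨H, hH⟩ := h Bool ⊤ (by simp) (by
      rw [avg, le_div_iff₀ (by simp)]
      have e : (univ : Finset Bool).offDiag = {(true, false), (false, true)} := by decide
      rw [e, sum_pair (by simp)]
      have a1 : (1 : ℚ) ≤ lam (⊤ : SimpleGraph Bool) true false := by
        exact_mod_cast hlam true false (by simp)
      have a2 : (1 : ℚ) ≤ lam (⊤ : SimpleGraph Bool) false true := by
        exact_mod_cast hlam false true (by simp)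
      simp only [Fintype.card_bool]
      push_cast
      linarith)
    refine no_sub ⊤ 1 t (by omega) (fun _ => 0) (fun v => ?_) H hH
    refine card_le_one.2 fun a ha b hb => ?_
    have h1 : v ≠ a := by simpa using ha
    have h2 : v ≠ b := by simpa using hb
    clear ha hb
    cases v <;> cases a <;> cases b <;> simp at h1 h2 ⊢
  · have : Fact (1 < l / 2 + 1) := ⟨by omega⟩
    have hcard : Fintype.card (ZMod (l / 2 + 1)) = l / 2 + 1 := ZMod.card _
    obtain ⟨H, hH⟩ := h (Fin (14 * Fintype.card (ZMod (l / 2 + 1))) × ZMod (l / 2 + 1))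
      (chain _ _) (by
        rw [Fintype.card_prod, Fintype.card_fin, hcard]
        nlinarith [Nat.zero_le (l / 2)]) (by
        have := chain_avg (Z := ZMod (l / 2 + 1)) l (by rw [hcard]; omega)
        simpa [avg] using this)
    exact no_sub _ (Fintype.card (ZMod (l / 2 + 1))) t (by rw [hcard]; exact hc)
      (fun v => v.1.val) (fun v => by simpa using chain_deg _ v) H hH

/-- `f(l) = ⌊l/2⌋ + 1` for every positive integer `l`. -/
theorem result (l : ℕ) (hl : 1 ≤ l) :
    IsGreatest {t : ℕ | 1 ≤ t ∧ Forces l t} (l / 2 + 1) :=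
  ⟨⟨by omega, lower l hl⟩, fun t ht => upper l t hl ht.2⟩

end Pool.Agent.Results.MP_3eb4be_co.Exact
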